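import Pool.Agent.Q77.LU.StmM
import Pool.Agent.Q150.LU.GAPF

/-! # Project LU (helper77), job DISC: the levels of the reduced model (helper203) -/

set_option autoImplicit false
set_option linter.unusedSectionVars false

open MeasureTheory Set Filter Topology
open scoped ContDiff

namespace Pool.Agent.Q203.LU

open Pool.Agent.Q77.LU Pool.Agent.Q150.LU

section general
variable {α : Type*} [MeasurableSpace α]

lemma dbl (μ : Measure α) [IsFiniteMeasure μ] (f : α → ℝ) (h1 : Integrable f μ)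
    (h2 : Integrable (fun x => f x ^ 2) μ) :
    ∫ x, ∫ y, (f x - f y) ^ 2 ∂μ ∂μ =
      2 * μ.real univ * (∫ x, f x ^ 2 ∂μ) - 2 * (∫ x, f x ∂μ) ^ 2 := by
  have e : ∀ x, ∫ y, (f x - f y) ^ 2 ∂μ =
      f x ^ 2 * μ.real univ - 2 * f x * (∫ y, f y ∂μ) + ∫ y, f y ^ 2 ∂μ := by
    intro x
    have e1 : ∀ y, (f x - f y) ^ 2 = (f x ^ 2 - 2 * f x * f y) + f y ^ 2 := fun y => by ring
    have j1 : Integrable (fun y => 2 * f x * f y) μ := h1.const_mul _
    have j0 : Integrable (fun y => f x ^ 2 - 2 * f x * f y) μ := (integrable_const _).sub j1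
    simp_rw [e1]
    rw [integral_add j0 h2, integral_sub (integrable_const _) j1, integral_const_mul,
      integral_const, smul_eq_mul]
    ring
  simp_rw [e]
  have i1 : Integrable (fun x => f x ^ 2 * μ.real univ) μ := h2.mul_const _
  have i2 : Integrable (fun x => 2 * f x * (∫ y, f y ∂μ)) μ := (h1.const_mul 2).mul_const _
  have i3 : Integrable (fun x => f x ^ 2 * μ.real univ - 2 * f x * (∫ y, f y ∂μ)) μ := i1.sub i2
  rw [integral_add i3 (integrable_const _), integral_sub i1 i2, integral_mul_const,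
    integral_mul_const, integral_const_mul, integral_const, smul_eq_mul]
  ring

lemma cs (μ : Measure α) [IsFiniteMeasure μ] (f : α → ℝ) (h1 : Integrable f μ)
    (h2 : Integrable (fun x => f x ^ 2) μ) :
    (∫ x, f x ∂μ) ^ 2 ≤ μ.real univ * ∫ x, f x ^ 2 ∂μ := by
  have h := dbl μ f h1 h2
  have h0 : 0 ≤ ∫ x, ∫ y, (f x - f y) ^ 2 ∂μ ∂μ :=
    integral_nonneg fun x => integral_nonneg fun y => sq_nonneg _
  linarith

end general

variable {P : Type} [Fintype P] [DecidableEq P]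

/-- The set of the upper bounds in the definition of the levels. -/
def LS (v : (P → ℝ) → ℝ) (𝒢 : Set ((P → ℝ) → (P → ℝ))) (k : ℕ) : Set ℝ :=
  {E : ℝ | ∃ ψ : Fin (k + 1) → (P → ℝ) → ℝ, (∀ i, CI 𝒢 (ψ i)) ∧
    (∀ i j, ∫ C, ψ i C * ψ j C = if i = j then 1 else 0) ∧
    ∀ c : Fin (k + 1) → ℝ, qf v (fun C => ∑ i, c i * ψ i C) ≤ E * ∑ i, c i ^ 2}

lemma lev_eq (v : (P → ℝ) → ℝ) (𝒢 : Set ((P → ℝ) → (P → ℝ))) (k : ℕ) :
    lev v 𝒢 k = sInf (LS v 𝒢 k) := rfl

lemma ci_comb {𝒢 : Set ((P → ℝ) → (P → ℝ))} {k : ℕ} {ψ : Fin k → (P → ℝ) → ℝ}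
    (h : ∀ i, CI 𝒢 (ψ i)) (c : Fin k → ℝ) : CI 𝒢 (fun C => ∑ i, c i * ψ i C) := by
  refine ⟨?_, ?_, ?_⟩
  · exact ContDiff.sum fun i _ => contDiff_const.mul (h i).sm
  · have h1 : ∀ s : Finset (Fin k), HasCompactSupport fun C => ∑ i ∈ s, c i * ψ i C := by
      intro s
      induction s using Finset.induction_on with
      | empty =>
        simp only [Finset.sum_empty]
        exact HasCompactSupport.zero
      | insert a s ha ih =>
        simp only [Finset.sum_insert ha]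
        exact ((h a).supp.mul_left (f := fun _ => c a)).add ih
    exact h1 _
  · intro σ hσ x
    refine Finset.sum_congr rfl fun i _ => ?_
    rw [(h i).inv σ hσ x]

lemma norm_comb {𝒢 : Set ((P → ℝ) → (P → ℝ))} {k : ℕ} {ψ : Fin k → (P → ℝ) → ℝ}
    (h : ∀ i, CI 𝒢 (ψ i)) (ho : ∀ i j, ∫ C, ψ i C * ψ j C = if i = j then 1 else 0)
    (c : Fin k → ℝ) : ∫ C, (∑ i, c i * ψ i C) ^ 2 = ∑ i, c i ^ 2 := by
  have e : ∀ C, (∑ i, c i * ψ i C) ^ 2 = ∑ i, ∑ j, (c i * c j) * (ψ i C * ψ j C) := by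
    intro C
    rw [sq, Finset.sum_mul_sum]
    refine Finset.sum_congr rfl fun i _ => Finset.sum_congr rfl fun j _ => ?_
    ring
  have hi : ∀ i j, Integrable fun C => (c i * c j) * (ψ i C * ψ j C) := by
    intro i j
    refine Integrable.const_mul ?_ _
    exact ((h i).sm.continuous.mul (h j).sm.continuous).integrable_of_hasCompactSupport
      ((h j).supp.mul_left)
  simp_rw [e]
  rw [integral_finsetSum _ fun i _ => integrable_finsetSum _ fun j _ => hi i j]
  refine Finset.sum_congr rfl fun i _ => ?_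
  rw [integral_finsetSum _ fun j _ => hi i j]
  simp_rw [integral_const_mul, ho]
  simp [sq]

lemma qf_nonneg (V : Pot P) (f : (P → ℝ) → ℝ) : 0 ≤ qf V.v f := by
  unfold qf
  refine integral_nonneg fun C => ?_
  have h1 : 0 ≤ g2 f C := g2_nonneg _ _
  have h2 : 0 ≤ V.v C * f C ^ 2 := mul_nonneg (V.nonneg C) (sq_nonneg _)
  simp only [Pi.zero_apply]
  linarith

lemma LS_nonneg (V : Pot P) (𝒢 : Set ((P → ℝ) → (P → ℝ))) (k : ℕ) (E : ℝ) (hE : E ∈ LS V.v 𝒢 k) :
    0 ≤ E := by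
  obtain ⟨ψ, -, -, h⟩ := hE
  have h1 := h (Pi.single 0 1)
  have h2 : ∑ i : Fin (k + 1), (Pi.single 0 1 : Fin (k + 1) → ℝ) i ^ 2 = 1 := by
    rw [Finset.sum_eq_single 0]
    · simp
    · intro j _ hj
      simp [Pi.single_eq_of_ne hj]
    · simp
  rw [h2, mul_one] at h1
  exact (qf_nonneg V _).trans h1

lemma qf_sum {k : ℕ} {𝒢 : Set ((P → ℝ) → (P → ℝ))} (V : Pot P) {ψ : Fin k → (P → ℝ) → ℝ}
    (h : ∀ i, CI 𝒢 (ψ i)) (c : Fin k → ℝ) :
    qf V.v (fun C => ∑ i, c i * ψ i C) ≤ k * ∑ i, c i ^ 2 * qf V.v (ψ i) := by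
  have hci := ci_comb h c
  have hint : ∀ f : (P → ℝ) → ℝ, CI 𝒢 f →
      Integrable fun C => (1 / 2 * g2 f C + V.v C * f C ^ 2) := fun f hf =>
    ((int_g2 (ci_c1 hf) hf.supp).const_mul _).add (int_mul_sq hf.sm.continuous hf.supp V.cont)
  unfold qf
  simp_rw [← integral_const_mul]
  rw [← integral_finsetSum _ fun i _ => (hint _ (h i)).const_mul _, ← integral_const_mul]
  refine integral_mono (hint _ hci)
    ((integrable_finsetSum _ fun i _ => (hint _ (h i)).const_mul _).const_mul _) fun C => ?_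
  simp only
  have hsq : ∀ a : Fin k → ℝ, (∑ i, a i) ^ 2 ≤ k * ∑ i, a i ^ 2 := by
    intro a
    have := sq_sum_le_card_mul_sum_sq (s := (Finset.univ : Finset (Fin k))) (f := a)
    simpa using this
  have hg : g2 (fun C => ∑ i, c i * ψ i C) C ≤ k * ∑ i, c i ^ 2 * g2 (ψ i) C := by
    unfold g2
    have hpd : ∀ l, pd (fun C => ∑ i, c i * ψ i C) l C = ∑ i, c i * pd (ψ i) l C := by
      intro l
      unfold pd
      have hd : ∀ i, DifferentiableAt ℝ (ψ i) C := fun i =>
        ((h i).sm.differentiable (by simp)) C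
      rw [fderiv_fun_sum fun i _ => (hd i).const_mul (c i)]
      rw [sum_apply]
      refine Finset.sum_congr rfl fun i _ => ?_
      rw [fderiv_const_mul (hd i)]
      simp
    simp_rw [hpd]
    calc ∑ l, (∑ i, c i * pd (ψ i) l C) ^ 2 ≤ ∑ l, k * ∑ i, (c i * pd (ψ i) l C) ^ 2 :=
          Finset.sum_le_sum fun l _ => hsq _
      _ = k * ∑ i, c i ^ 2 * ∑ l, pd (ψ i) l C ^ 2 := by
          rw [← Finset.mul_sum, Finset.sum_comm]
          congr 1
          refine Finset.sum_congr rfl fun i _ => ?_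
          rw [Finset.mul_sum]
          refine Finset.sum_congr rfl fun l _ => ?_
          ring
  have hv : V.v C * (∑ i, c i * ψ i C) ^ 2 ≤ k * ∑ i, c i ^ 2 * (V.v C * ψ i C ^ 2) := by
    calc V.v C * (∑ i, c i * ψ i C) ^ 2 ≤ V.v C * (k * ∑ i, (c i * ψ i C) ^ 2) :=
          mul_le_mul_of_nonneg_left (hsq _) (V.nonneg C)
      _ = k * ∑ i, c i ^ 2 * (V.v C * ψ i C ^ 2) := by
          rw [← mul_assoc, mul_comm (V.v C), mul_assoc, Finset.mul_sum]
          congr 1
          refine Finset.sum_congr rfl fun i _ => ?_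
          ring
  calc 1 / 2 * g2 (fun C => ∑ i, c i * ψ i C) C + V.v C * (∑ i, c i * ψ i C) ^ 2
      ≤ 1 / 2 * (k * ∑ i, c i ^ 2 * g2 (ψ i) C) + k * ∑ i, c i ^ 2 * (V.v C * ψ i C ^ 2) := by
        linarith
    _ = k * ∑ i, c i ^ 2 * (1 / 2 * g2 (ψ i) C + V.v C * ψ i C ^ 2) := by
        have e5 : ∑ i, c i ^ 2 * (1 / 2 * g2 (ψ i) C + V.v C * ψ i C ^ 2) =
            1 / 2 * (∑ i, c i ^ 2 * g2 (ψ i) C) + ∑ i, c i ^ 2 * (V.v C * ψ i C ^ 2) := by
          rw [Finset.mul_sum, ← Finset.sum_add_distrib]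
          refine Finset.sum_congr rfl fun i _ => ?_
          ring
        rw [e5]
        ring

/-- There are enough invariant functions. -/
lemma LS_nonempty [Nonempty P] (V : Pot P) {𝒢 : Set ((P → ℝ) → (P → ℝ))}
    (h𝒢 : ∀ σ ∈ 𝒢, ∀ x, n2 (σ x) = n2 x) (k : ℕ) : (LS V.v 𝒢 k).Nonempty := by
  let b : ContDiffBump (0 : ℝ) := ⟨1 / 2, 1, by norm_num, by norm_num⟩
  let f : ℝ → (P → ℝ) → ℝ := fun u x => b (n2 x - u)
  have hf : ∀ u, CI 𝒢 (f u) := fun u => radial h𝒢 b u
  have hcont : ∀ u, Continuous (f u) := fun u => (hf u).sm.continuous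
  have hN : ∀ u : ℝ, 0 ≤ u → 0 < ∫ x, f u x ^ 2 := by
    intro u hu
    obtain ⟨i⟩ := ‹Nonempty P›
    have hx : n2 (Pi.single i (Real.sqrt u) : P → ℝ) = u := by
      unfold n2
      rw [Finset.sum_eq_single i]
      · simp [Real.sq_sqrt hu]
      · intro j _ hj
        simp [Pi.single_eq_of_ne hj]
      · simp
    apply ((hcont u).pow 2).integral_pos_of_hasCompactSupport_nonneg_nonzero
      (x := Pi.single i (Real.sqrt u))
    · refine (hf u).supp.mono fun x hx => ?_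
      rw [Function.mem_support] at hx ⊢
      intro h
      apply hx
      simp [h]
    · exact fun x => sq_nonneg _
    · have : b 0 = 1 := b.one_of_mem_closedBall (by simp [b])
      have h1 : f u (Pi.single i (Real.sqrt u)) = 1 := by
        simp only [f, hx, sub_self, this]
      rw [Pi.pow_apply, h1]
      norm_num
  have hdisj : ∀ u w : ℝ, 3 ≤ |u - w| → ∀ x, f u x * f w x = 0 := by
    intro u w huw x
    by_contra h
    have h0 : f u x ≠ 0 := left_ne_zero_of_mul h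
    have h3 : f w x ≠ 0 := right_ne_zero_of_mul h
    have k0 : n2 x - u ∈ Metric.ball (0:ℝ) b.rOut := by rw [← b.support_eq]; exact h0
    have k3 : n2 x - w ∈ Metric.ball (0:ℝ) b.rOut := by rw [← b.support_eq]; exact h3
    rw [Metric.mem_ball, Real.dist_eq, sub_zero] at k0 k3
    have e : b.rOut = 1 := rfl
    rw [e] at k0 k3
    have a0 := abs_lt.1 k0
    have a3 := abs_lt.1 k3
    have : |u - w| < 3 := by
      rw [abs_lt]
      constructor <;> linarith [a0.1, a0.2, a3.1, a3.2]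
    linarith
  let A : Fin (k + 1) → ℝ := fun j => ∫ x, f (3 * j) x ^ 2
  have hA : ∀ j, 0 < A j := fun j => hN _ (by positivity)
  let ψ : Fin (k + 1) → (P → ℝ) → ℝ := fun j x => (Real.sqrt (A j))⁻¹ * f (3 * j) x
  have hCI : ∀ j, CI 𝒢 (ψ j) := fun j =>
    ⟨contDiff_const.mul (hf _).sm, (hf _).supp.mul_left (f := fun _ => (Real.sqrt (A j))⁻¹),
        fun σ hσ x => by simp only [ψ, (hf (3 * j)).inv σ hσ x]⟩
  refine ⟨(k + 1 : ℕ) * ∑ i, qf V.v (ψ i), ψ, hCI, ?_, ?_⟩
  · intro i j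
    by_cases hij : i = j
    · subst hij
      rw [if_pos rfl]
      have e : ∀ C, ψ i C * ψ i C = (A i)⁻¹ * f (3 * i) C ^ 2 := by
        intro C
        have : (Real.sqrt (A i))⁻¹ * (Real.sqrt (A i))⁻¹ = (A i)⁻¹ := by
          rw [← mul_inv, Real.mul_self_sqrt (hA i).le]
        rw [← this]
        simp only [ψ]
        ring
      simp_rw [e]
      rw [integral_const_mul]
      exact inv_mul_cancel₀ (hA i).ne'
    · rw [if_neg hij]
      have e : ∀ C, ψ i C * ψ j C = 0 := by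
        intro C
        have h3 : 3 ≤ |3 * (i : ℝ) - 3 * (j : ℝ)| := by
          rw [← mul_sub, abs_mul]
          have h4 : (1 : ℝ) ≤ |(i : ℝ) - (j : ℝ)| := by
            have h5 : ((i : ℕ) : ℤ) - ((j : ℕ) : ℤ) ≠ 0 := by
              intro h
              apply hij
              apply Fin.ext
              omega
            have h6 := Int.one_le_abs h5
            have h7 : (|((i : ℕ) : ℤ) - ((j : ℕ) : ℤ)| : ℤ) = |(i : ℝ) - (j : ℝ)| := by
              push_cast
              rfl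
            rw [← h7]
            exact_mod_cast h6
          have h8 : |(3 : ℝ)| = 3 := by norm_num
          rw [h8]
          linarith
        have := hdisj _ _ h3 C
        simp only [ψ]
        calc (Real.sqrt (A i))⁻¹ * f (3 * i) C * ((Real.sqrt (A j))⁻¹ * f (3 * j) C)
            = (Real.sqrt (A i))⁻¹ * (Real.sqrt (A j))⁻¹ * (f (3 * i) C * f (3 * j) C) := by ring
          _ = 0 := by rw [this, mul_zero]
      simp [e]
  · intro c
    refine (qf_sum V hCI c).trans ?_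
    rw [mul_assoc]
    refine mul_le_mul_of_nonneg_left ?_ (by positivity)
    rw [Finset.sum_mul]
    refine Finset.sum_le_sum fun i _ => ?_
    rw [mul_comm]
    refine mul_le_mul_of_nonneg_left ?_ (qf_nonneg V _)
    exact Finset.single_le_sum (f := fun i => c i ^ 2) (fun i _ => sq_nonneg _) (Finset.mem_univ i)

lemma LS_anti (v : (P → ℝ) → ℝ) (𝒢 : Set ((P → ℝ) → (P → ℝ))) (k : ℕ) :
    LS v 𝒢 (k + 1) ⊆ LS v 𝒢 k := by
  rintro E ⟨ψ, h1, h2, h3⟩
  refine ⟨fun i => ψ i.castSucc, fun i => h1 _, fun i j => ?_, fun c => ?_⟩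
  · rw [h2]
    simp
  · have h := h3 (Fin.snoc (α := fun _ => ℝ) c 0)
    have e1 : ∀ C, ∑ i, (Fin.snoc (α := fun _ => ℝ) c 0 : Fin (k + 1 + 1) → ℝ) i * ψ i C =
        ∑ i, c i * ψ i.castSucc C := by
      intro C
      rw [Fin.sum_univ_castSucc]
      simp
    have e2 : ∑ i, (Fin.snoc (α := fun _ => ℝ) c 0 : Fin (k + 1 + 1) → ℝ) i ^ 2 =
        ∑ i, c i ^ 2 := by
      rw [Fin.sum_univ_castSucc]
      simp
    simp_rw [e1] at h
    rw [e2] at h
    exact h

lemma bdd (V : Pot P) (𝒢 : Set ((P → ℝ) → (P → ℝ))) (k : ℕ) : BddBelow (LS V.v 𝒢 k) :=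
  ⟨0, fun E hE => LS_nonneg V 𝒢 k E hE⟩

lemma lev_mono [Nonempty P] (V : Pot P) {𝒢 : Set ((P → ℝ) → (P → ℝ))}
    (h𝒢 : ∀ σ ∈ 𝒢, ∀ x, n2 (σ x) = n2 x) : Monotone (lev V.v 𝒢) := by
  refine monotone_nat_of_le_succ fun k => ?_
  rw [lev_eq, lev_eq]
  exact csInf_le_csInf (bdd V 𝒢 k) (LS_nonempty V h𝒢 (k + 1)) (LS_anti V.v 𝒢 k)

lemma nr_ge (x : P → ℝ) (i : P) : |x i| ≤ nr x := by
  unfold nr
  rw [← Real.sqrt_sq_eq_abs]
  refine Real.sqrt_le_sqrt ?_
  unfold n2
  exact Finset.single_le_sum (f := fun i => x i ^ 2) (fun i _ => sq_nonneg _)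
    (Finset.mem_univ i)

/-- the mass far away -/
lemma far (V : Pot P) {f : (P → ℝ) → ℝ} (hf : ContDiff ℝ 1 f) (hs : HasCompactSupport f) {R : ℝ}
    (hR : 0 < R) : 1 / R * ∫ C, nr C * f C ^ 2 ≤ qf V.v f / (V.κ * R) := by
  have h := V.simon f hf hs
  have hk := V.pos
  rw [le_div_iff₀ (by positivity)]
  calc 1 / R * (∫ C, nr C * f C ^ 2) * (V.κ * R) = V.κ * ∫ C, nr C * f C ^ 2 := by
        field_simp
    _ ≤ _ := h

lemma half_g2 (V : Pot P) {f : (P → ℝ) → ℝ} (hf : ContDiff ℝ 1 f) (hs : HasCompactSupport f) :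
    ∫ C, g2 f C ≤ 2 * qf V.v f := by
  have k2 := qf_eq hf hs V.cont
  have k3 : 0 ≤ ∫ C, V.v C * f C ^ 2 :=
    integral_nonneg fun C => mul_nonneg (V.nonneg C) (sq_nonneg _)
  linarith

/-- Poincare inequality on a cube in the usual form. -/
lemma poin_cube {K : ℝ} (hK : ∀ (t : ℝ) (a : P → ℝ) (f : (P → ℝ) → ℝ), 0 < t → ContDiff ℝ 1 f →
    ∫ x in Icc a (fun i => a i + t), ∫ y in Icc a (fun i => a i + t), (f x - f y) ^ 2 ≤
      K * t ^ (Fintype.card P + 2) * ∫ x in Icc a (fun i => a i + t), g2 f x)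
    {f : (P → ℝ) → ℝ} (hf : ContDiff ℝ 1 f) (a : P → ℝ) {t : ℝ} (ht : 0 < t) :
    ∫ x in Icc a (fun i => a i + t), f x ^ 2 ≤
      K / 2 * t ^ 2 * (∫ x in Icc a (fun i => a i + t), g2 f x) +
        (∫ x in Icc a (fun i => a i + t), f x) ^ 2 / t ^ (Fintype.card P) := by
  set Q := Icc a (fun i => a i + t) with hQ
  have hQc : IsCompact Q := isCompact_Icc
  have hvol : volume.real Q = t ^ (Fintype.card P) := by
    rw [measureReal_def, hQ, Real.volume_Icc_pi_toReal]
    · simp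
    · intro i
      simp only
      linarith
  have : IsFiniteMeasure (volume.restrict Q) := ⟨by
    rw [Measure.restrict_apply_univ]
    exact hQc.measure_lt_top⟩
  have i1 : IntegrableOn f Q := hf.continuous.continuousOn.integrableOn_compact hQc
  have i2 : IntegrableOn (fun x => f x ^ 2) Q :=
    (hf.continuous.pow 2).continuousOn.integrableOn_compact hQc
  have h1 := hK t a f ht hf
  have h2 := dbl (volume.restrict Q) f i1 i2
  have h3 : (volume.restrict Q).real univ = t ^ (Fintype.card P) := by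
    rw [measureReal_def, Measure.restrict_apply_univ, ← measureReal_def, hvol]
  rw [h2, h3] at h1
  have htp : 0 < t ^ (Fintype.card P) := by positivity
  rw [pow_add] at h1
  have h4 : (∫ x in Q, f x ^ 2) * t ^ (Fintype.card P) ≤
      (K / 2 * t ^ 2 * (∫ x in Q, g2 f x) +
        (∫ x in Q, f x) ^ 2 / t ^ (Fintype.card P)) * t ^ (Fintype.card P) := by
    rw [add_mul, div_mul_cancel₀ _ htp.ne']
    linarith
  exact le_of_mul_le_mul_right h4 htp

/-- The half open cubes. -/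
def Sub (a : P → ℝ) (t : ℝ) : Set (P → ℝ) := Set.pi univ fun i => Ico (a i) (a i + t)

lemma measurableSet_Sub (a : P → ℝ) (t : ℝ) : MeasurableSet (Sub a t) :=
  MeasurableSet.univ_pi fun _ => measurableSet_Ico

lemma Sub_ae (a : P → ℝ) (t : ℝ) : Sub a t =ᵐ[volume] Icc a (fun i => a i + t) := by
  unfold Sub
  exact Measure.univ_pi_Ico_ae_eq_Icc

/-- The lower corner of the cube with index `m`. -/
def crn (R t : ℝ) {M : ℕ} (m : P → Fin M) (i : P) : ℝ := -R + t * (m i : ℕ)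

lemma Sub_unique {R t : ℝ} (ht : 0 < t) {M : ℕ} {m m' : P → Fin M} {x : P → ℝ}
    (h : x ∈ Sub (crn R t m) t) (h' : x ∈ Sub (crn R t m') t) : m = m' := by
  funext i
  have h1 := h i (mem_univ i)
  have h2 := h' i (mem_univ i)
  simp only [crn, mem_Ico] at h1 h2
  have h3 : ((m i : ℕ) : ℝ) < (m' i : ℕ) + 1 := by
    have : t * (m i : ℕ) < t * ((m' i : ℕ) + 1) := by linarith [h1.1, h2.2]
    exact lt_of_mul_lt_mul_left this ht.le
  have h4 : ((m' i : ℕ) : ℝ) < (m i : ℕ) + 1 := by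
    have : t * (m' i : ℕ) < t * ((m i : ℕ) + 1) := by linarith [h2.1, h1.2]
    exact lt_of_mul_lt_mul_left this ht.le
  have h5 : (m i : ℕ) < (m' i : ℕ) + 1 := by exact_mod_cast h3
  have h6 : (m' i : ℕ) < (m i : ℕ) + 1 := by exact_mod_cast h4
  apply Fin.ext
  omega

lemma Sub_cover {R t : ℝ} (ht : 0 < t) {M : ℕ} (hM : t * M = 2 * R) {x : P → ℝ}
    (hx : ∀ i, -R ≤ x i ∧ x i < R) : ∃ m : P → Fin M, x ∈ Sub (crn R t m) t := by
  have h0 : ∀ i, 0 ≤ (x i + R) / t := fun i => div_nonneg (by linarith [(hx i).1]) ht.le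
  have h1 : ∀ i, ⌊(x i + R) / t⌋₊ < M := by
    intro i
    rw [Nat.floor_lt (h0 i), div_lt_iff₀ ht]
    linarith [(hx i).2, mul_comm t (M : ℝ)]
  refine ⟨fun i => ⟨⌊(x i + R) / t⌋₊, h1 i⟩, fun i _ => ?_⟩
  simp only [crn, mem_Ico]
  have h2 := Nat.floor_le (h0 i)
  have h3 := Nat.lt_floor_add_one ((x i + R) / t)
  rw [le_div_iff₀ ht] at h2
  rw [div_lt_iff₀ ht] at h3
  constructor
  · linarith
  · linarith

lemma sum_Sub_le {R t : ℝ} (ht : 0 < t) (M : ℕ) {g : (P → ℝ) → ℝ} (hg : ∀ x, 0 ≤ g x)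
    (hi : Integrable g) :
    ∑ m : P → Fin M, ∫ x in Icc (crn R t m) (fun i => crn R t m i + t), g x ≤ ∫ x, g x := by
  have e : ∀ m : P → Fin M, ∫ x in Icc (crn R t m) (fun i => crn R t m i + t), g x =
      ∫ x, (Sub (crn R t m) t).indicator g x := by
    intro m
    rw [integral_indicator (measurableSet_Sub _ _)]
    exact (setIntegral_congr_set (Sub_ae _ _)).symm
  simp_rw [e]
  rw [← integral_finsetSum _ fun m _ => hi.indicator (measurableSet_Sub _ _)]
  refine integral_mono (integrable_finsetSum _ fun m _ => hi.indicator (measurableSet_Sub _ _))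
    hi fun x => ?_
  simp only
  by_cases h : ∃ m : P → Fin M, x ∈ Sub (crn R t m) t
  · obtain ⟨m, hm⟩ := h
    rw [Finset.sum_eq_single m]
    · rw [indicator_of_mem hm]
    · intro m' _ hne
      refine indicator_of_notMem (fun h' => hne ?_) _
      exact Sub_unique ht h' hm
    · simp
  · push Not at h
    rw [Finset.sum_eq_zero fun m _ => indicator_of_notMem (h m) _]
    exact hg x

lemma le_sum_Sub {R t : ℝ} (hR : 0 < R) (ht : 0 < t) {M : ℕ} (hM : t * M = 2 * R)
    {f : (P → ℝ) → ℝ} (hf : Continuous f) (hs : HasCompactSupport f) :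
    ∫ x, f x ^ 2 ≤ (∑ m : P → Fin M, ∫ x in Icc (crn R t m) (fun i => crn R t m i + t), f x ^ 2) +
      1 / R * ∫ C, nr C * f C ^ 2 := by
  have hi := int_sq hf hs
  have hin := int_mul_sq hf hs nr_cont
  have e : ∀ m : P → Fin M, ∫ x in Icc (crn R t m) (fun i => crn R t m i + t), f x ^ 2 =
      ∫ x, (Sub (crn R t m) t).indicator (fun x => f x ^ 2) x := by
    intro m
    rw [integral_indicator (measurableSet_Sub _ _)]
    exact (setIntegral_congr_set (Sub_ae _ _)).symm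
  simp_rw [e]
  have hj : ∀ m ∈ (Finset.univ : Finset (P → Fin M)),
      Integrable ((Sub (crn R t m) t).indicator (fun x => f x ^ 2)) := fun m _ =>
    hi.indicator (measurableSet_Sub _ _)
  rw [← integral_finsetSum _ hj, ← integral_const_mul,
    ← integral_add (integrable_finsetSum _ hj) (hin.const_mul _)]
  refine integral_mono hi ((integrable_finsetSum _ hj).add (hin.const_mul _)) fun x => ?_
  simp only
  have hnn : ∀ m : P → Fin M, 0 ≤ (Sub (crn R t m) t).indicator (fun x => f x ^ 2) x := fun m =>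
    indicator_nonneg (fun _ _ => sq_nonneg _) _
  have hnr : 0 ≤ nr x := Real.sqrt_nonneg _
  by_cases h : ∀ i, -R ≤ x i ∧ x i < R
  · obtain ⟨m, hm⟩ := Sub_cover ht hM h
    have h1 : f x ^ 2 ≤ ∑ m : P → Fin M, (Sub (crn R t m) t).indicator (fun x => f x ^ 2) x := by
      refine le_trans (le_of_eq ?_) (Finset.single_le_sum (fun m _ => hnn m) (Finset.mem_univ m))
      rw [indicator_of_mem hm]
    have h2 : 0 ≤ 1 / R * (nr x * f x ^ 2) := by positivity
    linarith
  · push Not at h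
    obtain ⟨i, hi'⟩ := h
    have h1 : R ≤ |x i| := by
      by_cases h3 : -R ≤ x i
      · exact (hi' h3).trans (le_abs_self _)
      · push Not at h3
        rw [le_abs]
        right
        linarith
    have h2 : R ≤ nr x := h1.trans (nr_ge x i)
    have h3 : 1 ≤ 1 / R * nr x := by
      rw [one_div_mul_eq_div, le_div_iff₀ hR]; linarith
    have h4 : 0 ≤ ∑ m : P → Fin M, (Sub (crn R t m) t).indicator (fun x => f x ^ 2) x :=
      Finset.sum_nonneg fun m _ => hnn m
    calc f x ^ 2 = 1 * f x ^ 2 := (one_mul _).symm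
      _ ≤ (1 / R * nr x) * f x ^ 2 := mul_le_mul_of_nonneg_right h3 (sq_nonneg _)
      _ = 1 / R * (nr x * f x ^ 2) := by ring
      _ ≤ _ := by linarith

/-- The lower bound of the levels. -/
lemma lev_lower (hP : S_POIN) [Nonempty P] (V : Pot P) {𝒢 : Set ((P → ℝ) → (P → ℝ))}
    (h𝒢 : ∀ σ ∈ 𝒢, ∀ x, n2 (σ x) = n2 x) (A : ℝ) : ∃ k, A ≤ lev V.v 𝒢 k := by
  obtain ⟨K, hK, hpoin⟩ := hP P
  obtain ⟨B, hB0, hAB⟩ : ∃ B : ℝ, 0 < B ∧ A ≤ B := ⟨|A| + 1, by positivity, by
    linarith [le_abs_self A]⟩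
  have hκ := V.pos
  set R := 2 * B / V.κ with hR
  have hR0 : 0 < R := by positivity
  obtain ⟨M, hM⟩ := exists_nat_ge (max 1 (2 * R * (2 * B * K + 1)))
  have hM1 : (1 : ℝ) ≤ M := le_trans (le_max_left _ _) hM
  have hM2 : 2 * R * (2 * B * K + 1) ≤ M := le_trans (le_max_right _ _) hM
  have hM0 : (0 : ℝ) < M := by linarith
  set t := 2 * R / M with ht
  have ht0 : 0 < t := by positivity
  have htM : t * M = 2 * R := by rw [ht]; field_simp
  -- `t ≤ 1 / (2 B K + 1)`, so `K t ^ 2 ≤ 1 / (2 B)`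
  have ht1 : t * (2 * B * K + 1) ≤ 1 := by
    rw [ht, div_mul_eq_mul_div, div_le_one hM0]
    exact hM2
  have ht2 : t ≤ 1 := by nlinarith [mul_pos ht0 (mul_pos (mul_pos two_pos hB0) hK)]
  have ht3 : K * t ^ 2 ≤ 1 / (2 * B) := by
    rw [le_div_iff₀ (by positivity)]
    have h1 : K * t ^ 2 * (2 * B) = t * (t * (2 * B * K)) := by ring
    have h2 : t * (2 * B * K) ≤ 1 := by nlinarith
    have h3 : 0 ≤ t * (2 * B * K) := by positivity
    rw [h1]
    nlinarith
  refine ⟨Fintype.card (P → Fin M), ?_⟩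
  rw [lev_eq]
  refine le_csInf (LS_nonempty V h𝒢 _) fun E hE => ?_
  obtain ⟨ψ, hψ1, hψ2, hψ3⟩ := hE
  -- the linear conditions
  let L : (Fin (Fintype.card (P → Fin M) + 1) → ℝ) →ₗ[ℝ] ((P → Fin M) → ℝ) :=
    { toFun := fun c m => ∑ i, c i * ∫ x in Icc (crn R t m) (fun i => crn R t m i + t), ψ i x
      map_add' := fun c d => by
        funext m
        simp [add_mul, Finset.sum_add_distrib]
      map_smul' := fun r c => by
        funext m
        simp [Finset.mul_sum, mul_assoc] }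
  have hker : LinearMap.ker L ≠ ⊥ := by
    refine LinearMap.ker_ne_bot_of_finrank_lt ?_
    simp
  obtain ⟨c, hcL, hc0⟩ := (Submodule.ne_bot_iff _).1 hker
  rw [LinearMap.mem_ker] at hcL
  set f : (P → ℝ) → ℝ := fun C => ∑ i, c i * ψ i C with hf
  have hci : CI 𝒢 f := ci_comb hψ1 c
  have hf1 := ci_c1 hci
  have hnorm : ∫ C, f C ^ 2 = ∑ i, c i ^ 2 := norm_comb hψ1 hψ2 c
  have hS : 0 < ∑ i, c i ^ 2 := by
    obtain ⟨i, hi⟩ := Function.ne_iff.1 hc0
    have h1 : 0 < c i ^ 2 := by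
      have : c i ≠ 0 := hi
      positivity
    exact lt_of_lt_of_le h1 (Finset.single_le_sum (f := fun i => c i ^ 2)
      (fun i _ => sq_nonneg _) (Finset.mem_univ i))
  have hq : qf V.v f ≤ E * ∑ i, c i ^ 2 := hψ3 c
  have hz : ∀ m : P → Fin M, ∫ x in Icc (crn R t m) (fun i => crn R t m i + t), f x = 0 := by
    intro m
    have h1 := congrFun hcL m
    rw [← (show L c m = 0 from h1)]
    simp only [L, LinearMap.coe_mk, AddHom.coe_mk, hf]
    rw [integral_finsetSum]
    · simp_rw [integral_const_mul]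
    · intro i _
      exact ((continuous_const.mul (hψ1 i).sm.continuous).continuousOn).integrableOn_compact
        isCompact_Icc
  have h1 := le_sum_Sub hR0 ht0 htM hf1.continuous hci.supp
  have h2 : ∑ m : P → Fin M, ∫ x in Icc (crn R t m) (fun i => crn R t m i + t), f x ^ 2 ≤
      K / 2 * t ^ 2 * ∫ x, g2 f x := by
    calc ∑ m : P → Fin M, ∫ x in Icc (crn R t m) (fun i => crn R t m i + t), f x ^ 2
        ≤ ∑ m : P → Fin M, K / 2 * t ^ 2 *
            ∫ x in Icc (crn R t m) (fun i => crn R t m i + t), g2 f x := by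
          refine Finset.sum_le_sum fun m _ => ?_
          have h3 := poin_cube hpoin hf1 (crn R t m) ht0
          rw [hz m] at h3
          simpa using h3
      _ = K / 2 * t ^ 2 * ∑ m : P → Fin M,
            ∫ x in Icc (crn R t m) (fun i => crn R t m i + t), g2 f x := by
          rw [Finset.mul_sum]
      _ ≤ _ := by
          refine mul_le_mul_of_nonneg_left ?_ (by positivity)
          exact sum_Sub_le ht0 M (fun x => g2_nonneg _ _) (int_g2 hf1 hci.supp)
  have h3 := half_g2 V hf1 hci.supp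
  have h4 := far V hf1 hci.supp hR0
  have hq0 := qf_nonneg V f
  have h5 : qf V.v f / (V.κ * R) = qf V.v f / (2 * B) := by
    congr 1
    rw [hR]
    field_simp
  have h6 : K / 2 * t ^ 2 * ∫ x, g2 f x ≤ 1 / (2 * B) * qf V.v f := by
    calc K / 2 * t ^ 2 * ∫ x, g2 f x ≤ K / 2 * t ^ 2 * (2 * qf V.v f) :=
          mul_le_mul_of_nonneg_left h3 (by positivity)
      _ = (K * t ^ 2) * qf V.v f := by ring
      _ ≤ _ := mul_le_mul_of_nonneg_right ht3 hq0
  have h7 : ∑ i, c i ^ 2 ≤ (E * ∑ i, c i ^ 2) / B := by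
    rw [← hnorm]
    calc ∫ C, f C ^ 2 ≤ 1 / (2 * B) * qf V.v f + qf V.v f / (2 * B) := by
          rw [← h5]
          linarith
      _ = qf V.v f / B := by field_simp; ring
      _ ≤ (E * ∑ i, c i ^ 2) / B := by gcongr
      _ = _ := by rw [hnorm]
  rw [le_div_iff₀ hB0] at h7
  have h8 : B * ∑ i, c i ^ 2 ≤ E * ∑ i, c i ^ 2 := by linarith
  exact hAB.trans (le_of_mul_le_mul_right h8 hS)

lemma far_set (V : Pot P) {f : (P → ℝ) → ℝ} (hf : ContDiff ℝ 1 f) (hs : HasCompactSupport f)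
    {R : ℝ} (hR : 0 < R) {A : Set (P → ℝ)} (hA : MeasurableSet A) (h : ∀ x ∈ A, R ≤ nr x) :
    ∫ x in A, f x ^ 2 ≤ qf V.v f / (V.κ * R) := by
  refine le_trans ?_ (far V hf hs hR)
  have hi := int_sq hf.continuous hs
  have hin := int_mul_sq hf.continuous hs nr_cont
  rw [← integral_const_mul, ← integral_indicator hA]
  refine integral_mono (hi.indicator hA) (hin.const_mul _) fun x => ?_
  have hnr : 0 ≤ nr x := Real.sqrt_nonneg _
  by_cases hx : x ∈ A
  · simp only [indicator_of_mem hx]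
    have h3 : 1 ≤ 1 / R * nr x := by
      rw [one_div_mul_eq_div, le_div_iff₀ hR]; linarith [h x hx]
    calc f x ^ 2 = 1 * f x ^ 2 := (one_mul _).symm
      _ ≤ (1 / R * nr x) * f x ^ 2 := mul_le_mul_of_nonneg_right h3 (sq_nonneg _)
      _ = 1 / R * (nr x * f x ^ 2) := by ring
  · simp only [indicator_of_notMem hx]
    positivity

lemma nr_far {ρ : ℝ} {x : P → ℝ} (hx : x ∈ (Icc (fun _ : P => -ρ) (fun _ => -ρ + 2 * ρ))ᶜ) :
    ρ ≤ nr x := by
  by_contra hcon
  push Not at hcon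
  apply hx
  have habs : ∀ i, |x i| ≤ ρ := fun i => (nr_ge x i).trans hcon.le
  exact ⟨fun i => (abs_le.1 (habs i)).1, fun i => by
    have := (abs_le.1 (habs i)).2
    simp only
    linarith⟩

lemma vol_cube (a : P → ℝ) {t : ℝ} (ht : 0 < t) :
    volume.real (Icc a (fun i => a i + t)) = t ^ (Fintype.card P) := by
  rw [measureReal_def, Real.volume_Icc_pi_toReal]
  · simp
  · intro i
    simp only
    linarith

lemma cs_set {f : (P → ℝ) → ℝ} (hf : Continuous f) {A : Set (P → ℝ)} {a : P → ℝ} {t : ℝ}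
    (ht : 0 < t) (hA : A ⊆ Icc a (fun i => a i + t)) :
    (∫ x in A, f x) ^ 2 ≤ t ^ (Fintype.card P) * ∫ x in A, f x ^ 2 := by
  have hQ : IsCompact (Icc a (fun i => a i + t)) := isCompact_Icc
  have hfin : volume A < ⊤ := lt_of_le_of_lt (measure_mono hA) hQ.measure_lt_top
  have : IsFiniteMeasure (volume.restrict A) := ⟨by
    rw [Measure.restrict_apply_univ]
    exact hfin⟩
  have i1 : IntegrableOn f A := (hf.continuousOn.integrableOn_compact hQ).mono_set hA
  have i2 : IntegrableOn (fun x => f x ^ 2) A :=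
    ((hf.pow 2).continuousOn.integrableOn_compact hQ).mono_set hA
  refine (cs (volume.restrict A) f i1 i2).trans ?_
  refine mul_le_mul_of_nonneg_right ?_ (integral_nonneg fun _ => sq_nonneg _)
  rw [measureReal_def, Measure.restrict_apply_univ, ← measureReal_def, ← vol_cube a ht]
  exact measureReal_mono hA hQ.measure_lt_top.ne

/-- The lowest level is positive. -/
lemma lev_pos (hP : S_POIN) [Nonempty P] (V : Pot P) {𝒢 : Set ((P → ℝ) → (P → ℝ))}
    (h𝒢 : ∀ σ ∈ 𝒢, ∀ x, n2 (σ x) = n2 x) : 0 < lev V.v 𝒢 0 := by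
  obtain ⟨K, hK, hpoin⟩ := hP P
  have hκ := V.pos
  have hc : 0 < (3 / 4) / (4 * K + 24 / V.κ) := by positivity
  refine lt_of_lt_of_le hc ?_
  rw [lev_eq]
  refine le_csInf (LS_nonempty V h𝒢 0) fun E hE => ?_
  obtain ⟨ψ, hψ1, hψ2, hψ3⟩ := hE
  set f := ψ 0 with hf
  have hci : CI 𝒢 f := hψ1 0
  have hf1 := ci_c1 hci
  have hfc := hf1.continuous
  have hnorm : ∫ C, f C ^ 2 = 1 := by
    have := hψ2 0 0
    rw [if_pos rfl] at this
    rw [← this]
    refine integral_congr_ae (Eventually.of_forall fun C => ?_)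
    simp only [hf]
    ring
  have hq : qf V.v f ≤ E := by
    have := hψ3 (fun _ => 1)
    simpa using this
  refine le_trans ?_ hq
  have hq0 := qf_nonneg V f
  set q := qf V.v f with hqdef
  have hi := int_sq hfc hci.supp
  set Q : Set (P → ℝ) := Icc (fun _ => -1) (fun _ => -1 + 2 * 1) with hQ
  set S : Set (P → ℝ) := Icc (fun _ => -(1 / 8)) (fun _ => -(1 / 8) + 2 * (1 / 8)) with hS
  have hQm : MeasurableSet Q := measurableSet_Icc
  have hSm : MeasurableSet S := measurableSet_Icc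
  have hSQ : S ⊆ Q := by
    intro x hx
    refine ⟨fun i => ?_, fun i => ?_⟩
    · have := hx.1 i
      simp only at this ⊢
      linarith
    · have := hx.2 i
      simp only at this ⊢
      linarith
  have hQ2 : ∫ x in Qᶜ, f x ^ 2 ≤ q / (V.κ * 1) :=
    far_set V hf1 hci.supp one_pos hQm.compl fun x hx => nr_far hx
  have hS2 : ∫ x in Sᶜ, f x ^ 2 ≤ q / (V.κ * (1 / 8)) :=
    far_set V hf1 hci.supp (by norm_num) hSm.compl fun x hx => nr_far hx
  have hD2 : ∫ x in Q \ S, f x ^ 2 ≤ q / (V.κ * (1 / 8)) := by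
    refine le_trans ?_ hS2
    exact setIntegral_mono_set hi.integrableOn (Eventually.of_forall fun _ => sq_nonneg _)
      (Eventually.of_forall fun x hx => hx.2)
  have hsplit : (∫ x in Q, f x ^ 2) + ∫ x in Qᶜ, f x ^ 2 = 1 := by
    rw [← hnorm]; exact integral_add_compl hQm hi
  have hSle : ∫ x in S, f x ^ 2 ≤ 1 := by
    rw [← hnorm]
    exact setIntegral_le_integral hi (Eventually.of_forall fun _ => sq_nonneg _)
  have hint : ∫ x in Q, f x = (∫ x in S, f x) + ∫ x in Q \ S, f x := by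
    have iQ : IntegrableOn f Q := hfc.continuousOn.integrableOn_compact isCompact_Icc
    have := setIntegral_union (f := f) (μ := volume) (disjoint_sdiff_right (s := S) (t := Q))
      (hQm.diff hSm) (iQ.mono_set hSQ) (iQ.mono_set sdiff_subset)
    rw [union_sdiff_cancel hSQ] at this
    exact this
  have c1 : (∫ x in S, f x) ^ 2 ≤ (2 * (1 / 8)) ^ (Fintype.card P) * ∫ x in S, f x ^ 2 :=
    cs_set hfc (by norm_num) (le_refl _)
  have c2 : (∫ x in Q \ S, f x) ^ 2 ≤ (2 * 1) ^ (Fintype.card P) * ∫ x in Q \ S, f x ^ 2 :=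
    cs_set hfc (by norm_num) sdiff_subset
  have hcube := poin_cube hpoin hf1 (fun _ => -1) (t := 2 * 1) (by norm_num)
  have hg2 : ∫ x in Q, g2 f x ≤ 2 * q :=
    (setIntegral_le_integral (int_g2 hf1 hci.supp)
      (Eventually.of_forall fun _ => g2_nonneg _ _)).trans (half_g2 V hf1 hci.supp)
  have hp : (0 : ℝ) < (2 * 1) ^ (Fintype.card P) := by positivity
  have hb : (∫ x in Q, f x) ^ 2 / (2 * 1) ^ (Fintype.card P) ≤
      1 / 4 + 2 * (q / (V.κ * (1 / 8))) := by
    rw [div_le_iff₀ hp, hint]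
    have e1 : ((2 : ℝ) * (1 / 8)) ^ (Fintype.card P) ≤ 1 / 8 * (2 * 1) ^ (Fintype.card P) := by
      have e2 : ((2 : ℝ) * (1 / 8)) ^ (Fintype.card P) =
          (1 / 8) ^ (Fintype.card P) * (2 * 1) ^ (Fintype.card P) := by
        rw [← mul_pow]
        norm_num
      rw [e2]
      refine mul_le_mul_of_nonneg_right ?_ hp.le
      have h1 : 1 ≤ Fintype.card P := Fintype.card_pos
      calc ((1 : ℝ) / 8) ^ (Fintype.card P) ≤ (1 / 8) ^ 1 :=
            pow_le_pow_of_le_one (by norm_num) (by norm_num) h1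
        _ = 1 / 8 := pow_one _
    have e3 : (∫ x in S, f x) ^ 2 ≤ 1 / 8 * (2 * 1) ^ (Fintype.card P) := by
      refine c1.trans (le_trans ?_ e1)
      have : (0 : ℝ) ≤ (2 * (1 / 8)) ^ (Fintype.card P) := by positivity
      nlinarith
    have e4 : (∫ x in Q \ S, f x) ^ 2 ≤ (2 * 1) ^ (Fintype.card P) * (q / (V.κ * (1 / 8))) :=
      c2.trans (mul_le_mul_of_nonneg_left hD2 hp.le)
    nlinarith [sq_nonneg ((∫ x in S, f x) - ∫ x in Q \ S, f x)]
  have hfin : 1 ≤ 1 / 4 + (4 * K + 24 / V.κ) * q := by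
    have e5 : K / 2 * (2 * 1) ^ 2 * (∫ x in Q, g2 f x) ≤ 4 * K * q := by
      calc K / 2 * (2 * 1) ^ 2 * (∫ x in Q, g2 f x) ≤ K / 2 * (2 * 1) ^ 2 * (2 * q) :=
            mul_le_mul_of_nonneg_left hg2 (by positivity)
        _ = 4 * K * q := by ring
    have e6 : q / (V.κ * 1) ≤ q / (V.κ * (1 / 8)) := by
      gcongr
      norm_num
    have e7 : q / (V.κ * (1 / 8)) = 8 / V.κ * q := by
      field_simp
    have e8 : 24 / V.κ * q = 3 * (8 / V.κ * q) := by ring
    rw [e7] at hb e6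
    have hcube' : ∫ x in Q, f x ^ 2 ≤ K / 2 * (2 * 1) ^ 2 * (∫ x in Q, g2 f x) +
        (∫ x in Q, f x) ^ 2 / (2 * 1) ^ (Fintype.card P) := hcube
    nlinarith
  have hpos : 0 < 4 * K + 24 / V.κ := by positivity
  rw [div_le_iff₀ hpos]
  linarith

theorem t_DISC (h : S_POIN) : S_DISC := by
  intro P _ _ _ V 𝒢 h𝒢
  refine ⟨lev_pos h V h𝒢, lev_mono V h𝒢, ?_⟩
  refine tendsto_atTop_atTop_of_monotone (lev_mono V h𝒢) fun A => ?_
  exact lev_lower h V h𝒢 A

end Pool.Agent.Q203.LU
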