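import Pool.Agent.Q77.LU.StmU
import Pool.Agent.Q297.LU.INVF

/-! # Project LU (helper77), uniform version, job INVU: the radius of the chart (helper203) -/

set_option autoImplicit false
set_option linter.unusedSectionVars false

open MeasureTheory Matrix Set Filter Topology
open scoped ContDiff Matrix.Norms.Frobenius

namespace Pool.Agent.Q203.LU

open Pool.Agent.Q77.LU
open Pool.Agent.Q297.LU (nx_cont nx_zero lin_cd exp_cd nx_small)

noncomputable section

/-! ### norms of iterated derivatives -/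

lemma iter_comp {E' : Type*} [NormedAddCommGroup E'] [NormedSpace ℝ E'] {S : Type} [Fintype S]
    {Y : Type*} [NormedAddCommGroup Y] [NormedSpace ℝ Y]
    (u : E' → S → Y) (hu : ContDiff ℝ ∞ u) (i : ℕ) (x : E') (s : S) (m : Fin i → E') :
    iteratedFDeriv ℝ i (fun x => u x s) x m = (iteratedFDeriv ℝ i u x m) s := by
  have h := (ContinuousLinearMap.proj s : (S → Y) →L[ℝ] Y).iteratedFDeriv_comp_left
    (hu.contDiffAt (x := x)) (i := i) (by exact_mod_cast le_top)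
  exact congrArg (fun L => L m) h

lemma norm_iter_pi {E' : Type*} [NormedAddCommGroup E'] [NormedSpace ℝ E'] {S : Type} [Fintype S]
    (u : E' → S → ℝ) (hu : ContDiff ℝ ∞ u) (i : ℕ) (x : E') (C : ℝ) (hC : 0 ≤ C)
    (h : ∀ s, ‖iteratedFDeriv ℝ i (fun x => u x s) x‖ ≤ C) : ‖iteratedFDeriv ℝ i u x‖ ≤ C := by
  refine ContinuousMultilinearMap.opNorm_le_bound hC fun m => ?_
  rw [pi_norm_le_iff_of_nonneg (by positivity)]
  intro s
  rw [← iter_comp u hu]
  exact (ContinuousMultilinearMap.le_opNorm _ _).trans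
    (mul_le_mul_of_nonneg_right (h s) (by positivity))

lemma norm_iter_coord {E' : Type*} [NormedAddCommGroup E'] [NormedSpace ℝ E'] {S : Type}
    [Fintype S] {Y : Type*} [NormedAddCommGroup Y] [NormedSpace ℝ Y]
    (u : E' → S → Y) (hu : ContDiff ℝ ∞ u) (i : ℕ) (x : E') (s : S) :
    ‖iteratedFDeriv ℝ i (fun x => u x s) x‖ ≤ ‖iteratedFDeriv ℝ i u x‖ := by
  refine ContinuousMultilinearMap.opNorm_le_bound (norm_nonneg _) fun m => ?_
  rw [iter_comp u hu]
  exact (norm_le_pi_norm _ s).trans (ContinuousMultilinearMap.le_opNorm _ _)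

lemma lip_gen {X Y : Type*} [NormedAddCommGroup X] [NormedSpace ℝ X] [FiniteDimensional ℝ X]
    [NormedAddCommGroup Y] [NormedSpace ℝ Y] (f : X → Y) (hf : ContDiff ℝ ∞ f) (x0 : X) (ε : ℝ)
    (hε : 0 < ε) : ∃ c : ℝ, 0 ≤ c ∧ ∀ x, ‖x - x0‖ < ε → ‖f x - f x0‖ ≤ c * ‖x - x0‖ := by
  have : ProperSpace X := FiniteDimensional.proper_real X
  have hc : Continuous fun M => fderiv ℝ f M := hf.continuous_fderiv (by simp)
  obtain ⟨c, hc⟩ := (isCompact_closedBall x0 ε).exists_bound_of_continuousOn hc.continuousOn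
  have hc0 : 0 ≤ c := (norm_nonneg _).trans (hc x0 (Metric.mem_closedBall_self hε.le))
  refine ⟨c, hc0, fun x hx => ?_⟩
  refine (convex_closedBall x0 ε).norm_image_sub_le_of_norm_fderiv_le
    (fun M _ => (hf.differentiable (by simp)) M) (fun M hM => hc M hM)
    (Metric.mem_closedBall_self hε.le) ?_
  rw [mem_closedBall_iff_norm]
  exact hx.le

/-! ### norms -/

lemma n2_nonneg {ι : Type} [Fintype ι] (y : ι → ℝ) : 0 ≤ n2 y :=
  Finset.sum_nonneg fun i _ => sq_nonneg _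

lemma nrm_lt {P Q : Type} [Fintype P] [Fintype Q] {ρ : ℝ} (hρ : 0 < ρ)
    {x : (P → ℝ) × (Q → ℝ)} (hx : nx x < ρ ^ 2) : ‖x‖ < ρ := by
  rw [Prod.norm_def, max_lt_iff]
  have h1 : ∀ (ι : Type) [Fintype ι] (y : ι → ℝ), n2 y < ρ ^ 2 → ‖y‖ < ρ := by
    intro ι _ y hy
    rw [pi_norm_lt_iff hρ]
    intro i
    rw [Real.norm_eq_abs]
    refine abs_lt_of_sq_lt_sq ?_ hρ.le
    refine lt_of_le_of_lt ?_ hy
    exact Finset.single_le_sum (f := fun i => y i ^ 2) (fun i _ => sq_nonneg _) (Finset.mem_univ i)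
  unfold nx at hx
  constructor
  · exact h1 P x.1 (by linarith [n2_nonneg x.2])
  · exact h1 Q x.2 (by linarith [n2_nonneg x.1])

lemma n2_le {ι : Type} [Fintype ι] (y : ι → ℝ) : n2 y ≤ Fintype.card ι * ‖y‖ ^ 2 := by
  unfold n2
  calc ∑ i, y i ^ 2 ≤ ∑ _i : ι, ‖y‖ ^ 2 := by
        refine Finset.sum_le_sum fun i _ => ?_
        rw [← sq_abs, ← Real.norm_eq_abs]
        exact pow_le_pow_left₀ (norm_nonneg _) (norm_le_pi_norm y i) 2
    _ = _ := by rw [Finset.sum_const, Finset.card_univ, nsmul_eq_mul]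

lemma n2_conv {ι : Type} [Fintype ι] (x y : ι → ℝ) {a b : ℝ} (ha : 0 ≤ a) (hb : 0 ≤ b)
    (hab : a + b = 1) : n2 (a • x + b • y) ≤ a * n2 x + b * n2 y := by
  unfold n2
  rw [Finset.mul_sum, Finset.mul_sum, ← Finset.sum_add_distrib]
  refine Finset.sum_le_sum fun i _ => ?_
  simp only [Pi.add_apply, Pi.smul_apply, smul_eq_mul]
  have hb' : b = 1 - a := by linarith
  have h1 : 0 ≤ a * b * (x i - y i) ^ 2 := by positivity
  rw [hb'] at h1 ⊢
  nlinarith [h1]

lemma conv_nx {P Q : Type} [Fintype P] [Fintype Q] :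
    Convex ℝ {x : (P → ℝ) × (Q → ℝ) | nx x ≤ 1} := by
  intro x hx y hy a b ha hb hab
  have hx' : nx x ≤ 1 := hx
  have hy' : nx y ≤ 1 := hy
  show nx (a • x + b • y) ≤ 1
  have h1 := n2_conv x.1 y.1 ha hb hab
  have h2 := n2_conv x.2 y.2 ha hb hab
  unfold nx at *
  have h3 : n2 (a • x + b • y).1 = n2 (a • x.1 + b • y.1) := rfl
  have h4 : n2 (a • x + b • y).2 = n2 (a • x.2 + b • y.2) := rfl
  rw [h3, h4]
  nlinarith [mul_le_mul_of_nonneg_left hx' ha, mul_le_mul_of_nonneg_left hy' hb]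

/-- `lin` as a continuous linear map. -/
def linC {N n : ℕ} {G : Subgroup (UU N)} (B : LieBasis G n) : (Fin n → ℝ) →L[ℝ] Mt N :=
  LinearMap.toContinuousLinearMap (linL B)

lemma linC_apply {N n : ℕ} {G : Subgroup (UU N)} (B : LieBasis G n) (v : Fin n → ℝ) :
    linC B v = lin B v := rfl

/-- **INVU** -/
theorem t_INVU (_ : S_EXPG) (h2 : S_LOGC) (h3 : S_QIF) (h4 : S_THD) (h5 : S_THDU)
    (h6 : S_CARD) : S_INVU := by
  intro N n D G hG B
  obtain ⟨lg, ρ0, ε, hρ0, hε, hlg, hlg1, hlg2⟩ := h2 N n G hG B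
  obtain ⟨p₁, C₁, hC₁, hT⟩ := h5 N n D G hG B
  obtain ⟨p₃, C₃, hC₃, hQ⟩ := h3
  have hcG : CompactSpace G := compactG hG
  -- bounds of the logarithm
  have hlga : ∀ a, ContDiff ℝ ∞ (fun M => lg M a) := fun a => (contDiff_pi.1 hlg) a
  have hbd : ∃ K : ℝ, 0 ≤ K ∧ ∀ (i : ℕ), i ≤ 2 → ∀ (a : Fin n) (g : G),
      ‖iteratedFDeriv ℝ i (fun M => lg M a) (mt g)‖ ≤ K := by
    have h7 : ∀ (i : ℕ) (a : Fin n), ∃ K : ℝ, ∀ g : G,
        ‖iteratedFDeriv ℝ i (fun M => lg M a) (mt g)‖ ≤ K := by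
      intro i a
      have hc : Continuous fun g : G => iteratedFDeriv ℝ i (fun M => lg M a) (mt g) :=
        ((hlga a).continuous_iteratedFDeriv (m := i) (by exact_mod_cast le_top)).comp continuous_mt
      obtain ⟨K, hK⟩ := (isCompact_univ (X := G)).exists_bound_of_continuousOn hc.continuousOn
      exact ⟨K, fun g => hK g (Set.mem_univ _)⟩
    choose K hK using h7
    refine ⟨∑ i ∈ Finset.range 3, ∑ a, |K i a|, by positivity, fun i hi a g => ?_⟩
    refine (hK i a g).trans ((le_abs_self _).trans ?_)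
    refine (Finset.single_le_sum (f := fun a => |K i a|) (fun a _ => abs_nonneg _)
      (Finset.mem_univ a)).trans ?_
    exact Finset.single_le_sum (f := fun i => ∑ a, |K i a|)
      (fun i _ => Finset.sum_nonneg fun a _ => abs_nonneg _) (Finset.mem_range.2 (by omega))
  obtain ⟨K, hK0, hK⟩ := hbd
  have hlg0 : lg 1 = 0 := by
    have h7 : n2 (0 : Fin n → ℝ) < ρ0 ^ 2 := by
      unfold n2
      simp
      positivity
    have h8 := hlg1 0 h7
    rwa [lin_zero, NormedSpace.exp_zero] at h8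
  have hlip : ∃ c : ℝ, 0 ≤ c ∧ ∀ g : G, ‖mt g - 1‖ < ε → n2 (lg (mt g)) ≤ c * ‖mt g - 1‖ ^ 2 := by
    obtain ⟨c, hc0, hc⟩ := lip_gen lg hlg 1 ε hε
    refine ⟨n * c ^ 2, by positivity, fun g hg => ?_⟩
    have h7 := hc (mt g) hg
    rw [hlg0, sub_zero] at h7
    refine (n2_le _).trans ?_
    rw [Fintype.card_fin]
    have h8 : ‖lg (mt g)‖ ^ 2 ≤ (c * ‖mt g - 1‖) ^ 2 := pow_le_pow_left₀ (norm_nonneg _) h7 2
    calc (n : ℝ) * ‖lg (mt g)‖ ^ 2 ≤ n * (c * ‖mt g - 1‖) ^ 2 :=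
          mul_le_mul_of_nonneg_left h8 (by positivity)
      _ = _ := by ring
  obtain ⟨c, hc0, hc⟩ := hlip
  -- the constants
  set p₂ : ℕ := 2 * p₁ + D with hp₂
  set C₂ : ℝ := 1 + D * n + (D * n + n) + 2 * K * C₁ ^ 2 with hC₂
  have hC₂1 : 1 ≤ C₂ := by
    have : 0 ≤ (D : ℝ) * n + (D * n + n) + 2 * K * C₁ ^ 2 := by positivity
    linarith
  set κ₀ : ℝ := 1 + (D + 1) * c with hκ₀
  have hκ₀1 : 1 ≤ κ₀ := by
    have : 0 ≤ ((D : ℝ) + 1) * c := by positivity
    linarith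
  have hε1 : 0 < ε⁻¹ := inv_pos.2 hε
  refine ⟨p₂ * p₃ + D + p₁, C₃ * C₂ ^ p₃ * κ₀ * C₁ * (1 + ε⁻¹), ?_, ?_⟩
  · have e1 : 1 ≤ C₂ ^ p₃ := one_le_pow₀ hC₂1
    have e2 := one_le_mul_of_one_le_of_one_le hC₃ e1
    have e3 := one_le_mul_of_one_le_of_one_le e2 hκ₀1
    have e4 := one_le_mul_of_one_le_of_one_le e3 hC₁
    exact one_le_mul_of_one_le_of_one_le e4 (by linarith)
  intro l _ dc
  have hl1 : (1 : ℝ) ≤ l := by exact_mod_cast Nat.one_le_iff_ne_zero.2 (NeZero.ne l)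
  have hlp : ∀ p : ℕ, (1 : ℝ) ≤ (l : ℝ) ^ p := fun p => one_le_pow₀ hl1
  set Φ : (Fin D × Fin n → ℝ) × (Fin dc.M → ℝ) → (NT D l → Mt N) :=
    fun x e => mt (dc.th x e) with hΦ
  obtain ⟨hth0, hΦs, -, -⟩ := h4 N n D l G hG B dc
  obtain ⟨hT1, hT2⟩ := hT l dc
  set A : ℝ := C₁ * (l : ℝ) ^ p₁ with hA
  have hA1 : 1 ≤ A := one_le_mul_of_one_le_of_one_le hC₁ (hlp p₁)
  set Λ : ℝ := C₂ * (l : ℝ) ^ p₂ with hΛ
  have hΛ1 : 1 ≤ Λ := one_le_mul_of_one_le_of_one_le hC₂1 (hlp p₂)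
  -- the map `u`
  set Lg : (NT D l → Mt N) → (NT D l × Fin n → ℝ) := fun M s => lg (M s.1) s.2 with hLg
  have hLgs : ContDiff ℝ ∞ Lg := by
    rw [contDiff_pi]
    intro s
    exact (hlga s.2).comp (contDiff_apply ℝ (Mt N) s.1)
  set u : (Fin D × Fin n → ℝ) × (Fin dc.M → ℝ) → (NT D l × Fin n → ℝ) := fun x => Lg (Φ x) with hu
  have hus : ContDiff ℝ ∞ u := hLgs.comp hΦs
  have hΦ0 : Φ 0 = fun _ => 1 := by
    funext e
    rw [hΦ]
    simp only
    rw [hth0]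
    rfl
  have hu0 : u 0 = 0 := by
    funext s
    rw [hu]
    simp only
    rw [hΦ0]
    show lg 1 s.2 = 0
    rw [hlg0]
    rfl
  -- the size of `Φ - 1`
  have hΦ1 : ∀ (ρ : ℝ) x, 0 < ρ → ρ ≤ 1 → nx x < ρ ^ 2 → ∀ e, ‖Φ x e - 1‖ ≤ A * ρ := by
    intro ρ x hρ hρ1 hx e
    have hx1 : nx x ≤ 1 := by
      have : ρ ^ 2 ≤ 1 := pow_le_one₀ hρ.le hρ1
      linarith
    have h7 : ‖Φ x - Φ 0‖ ≤ A * ‖x - 0‖ := by
      refine conv_nx.norm_image_sub_le_of_norm_fderiv_le (f := Φ)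
        (fun y _ => (hΦs.differentiable (by simp)) y) (fun y hy => ?_) ?_ hx1
      · rw [← norm_iteratedFDeriv_one]
        exact (hT2 y hy).1
      · show nx 0 ≤ 1
        rw [nx_zero]
        exact zero_le_one
    rw [sub_zero] at h7
    have h8 : ‖Φ x e - 1‖ ≤ ‖Φ x - Φ 0‖ := by
      have h9 := norm_le_pi_norm (Φ x - Φ 0) e
      have h10 : (Φ x - Φ 0) e = Φ x e - 1 := by rw [Pi.sub_apply, hΦ0]
      rwa [h10] at h9
    exact h8.trans (h7.trans (mul_le_mul_of_nonneg_left (nrm_lt hρ hx).le (by linarith)))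
  have hexp : ∀ V : NT D l → G, (∀ e, ‖mt (V e) - 1‖ < ε) →
      ∀ e, mt (V e) = NormedSpace.exp (lin B (fun a => Lg (fun e => mt (V e)) (e, a))) := by
    intro V hV e
    exact (hlg2 _ (hV e)).2
  -- the derivative at zero
  have hder : ∀ v e, fderiv ℝ Φ 0 v e = lin B fun a => fderiv ℝ u 0 v (e, a) := by
    set Ex : (NT D l × Fin n → ℝ) → (NT D l → Mt N) :=
      fun w e => NormedSpace.exp (lin B fun a => w (e, a)) with hEx
    let sl : ∀ e : NT D l, (NT D l × Fin n → ℝ) →L[ℝ] (Fin n → ℝ) := fun e =>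
      ContinuousLinearMap.pi fun a => ContinuousLinearMap.proj (e, a)
    have hExd : HasFDerivAt Ex (ContinuousLinearMap.pi fun e => (linC B).comp (sl e)) 0 := by
      refine hasFDerivAt_pi.2 fun e => ?_
      have h7 : HasFDerivAt (fun A : Mt N => NormedSpace.exp A)
          (1 : Mt N →L[ℝ] Mt N) (((linC B).comp (sl e)) 0) := by
        rw [map_zero]
        exact hasFDerivAt_exp_zero
      have h8 := h7.comp (0 : NT D l × Fin n → ℝ) ((linC B).comp (sl e)).hasFDerivAt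
      exact h8
    have hev : Φ =ᶠ[𝓝 0] Ex ∘ u := by
      have hgood : {x | ∀ e, ‖Φ x e - 1‖ < ε} ∈ 𝓝 (0 : (Fin D × Fin n → ℝ) × (Fin dc.M → ℝ)) := by
        have hco : ∀ e, Continuous fun x => ‖Φ x e - 1‖ := fun e =>
          (((continuous_apply e).comp hΦs.continuous).sub continuous_const).norm
        have : IsOpen {x | ∀ e, ‖Φ x e - 1‖ < ε} := by
          rw [Set.ofPred_forall]
          exact isOpen_iInter_of_finite fun e => isOpen_lt (hco e) continuous_const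
        refine this.mem_nhds fun e => ?_
        rw [hΦ0, sub_self, norm_zero]
        exact hε
      filter_upwards [hgood] with x hx
      funext e
      exact hexp (dc.th x) hx e
    have hud : HasFDerivAt u (fderiv ℝ u 0) 0 :=
      ((hus.differentiable (by simp)) 0).hasFDerivAt
    have h7 : HasFDerivAt (Ex ∘ u)
        ((ContinuousLinearMap.pi fun e => (linC B).comp (sl e)).comp (fderiv ℝ u 0)) 0 := by
      refine HasFDerivAt.comp 0 ?_ hud
      rw [hu0]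
      exact hExd
    have h8 := (h7.congr_of_eventuallyEq hev).fderiv
    intro v e
    rw [h8]
    rfl
  have hlow : ∀ v, nx v ≤ Λ ^ 2 * n2 (fderiv ℝ u 0 v) := by
    intro v
    have h7 : ∑ e, ‖fderiv ℝ Φ 0 v e‖ ^ 2 = n2 (fderiv ℝ u 0 v) := by
      unfold n2
      rw [Fintype.sum_prod_type]
      refine Finset.sum_congr rfl fun e _ => ?_
      rw [hder, ← fro2_eq, fro2_lin]
      rfl
    have h8 := hT1 v
    rw [h7] at h8
    refine h8.trans ?_
    exact le_mul_of_one_le_left (n2_nonneg _) (one_le_pow₀ hΛ1)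
  have hup : ∀ x, nx x ≤ Λ⁻¹ ^ 2 → ‖iteratedFDeriv ℝ 2 u x‖ ≤ Λ := by
    intro x hx
    have hx1 : nx x ≤ 1 := hx.trans (pow_le_one₀ (by positivity) (inv_le_one_of_one_le₀ hΛ1))
    refine norm_iter_pi u hus 2 x Λ (by linarith) fun s => ?_
    have h7 : (fun x => u x s) = (fun M => lg M s.2) ∘ (fun x => Φ x s.1) := rfl
    rw [h7]
    have hΦe : ContDiff ℝ ∞ (fun x => Φ x s.1) := (contDiff_pi.1 hΦs) s.1
    have h21 : ∀ m : ℕ, ((m : ℕ) : ℕ∞ω) ≤ ∞ := fun m => by exact_mod_cast le_top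
    have h22 := h21 2
    have h8 := norm_iteratedFDeriv_comp_le (hlga s.2) hΦe (n := 2) h22 x
      (C := K) (D := A) (fun i hi => hK i hi s.2 (dc.th x s.1)) (fun i hi1 hi2 => by
        have h9 := norm_iter_coord Φ hΦs i x s.1
        refine h9.trans ?_
        have h10 : i = 1 ∨ i = 2 := by omega
        rcases h10 with rfl | rfl
        · rw [pow_one]; exact (hT2 x hx1).1
        · refine (hT2 x hx1).2.trans ?_
          exact le_self_pow₀ hA1 (by norm_num))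
    refine h8.trans ?_
    have h9 : (Nat.factorial 2 : ℝ) * K * A ^ 2 = 2 * K * C₁ ^ 2 * (l : ℝ) ^ (2 * p₁) := by
      rw [hA, Nat.factorial_two]
      push_cast
      ring
    rw [h9, hΛ]
    refine mul_le_mul ?_ (pow_le_pow_right₀ hl1 (by omega)) (by positivity) (by linarith)
    have : 0 ≤ 1 + (D : ℝ) * n + (D * n + n) := by positivity
    linarith
  -- cardinalities
  have hc6 := h6 D l
  have hcP : (Fintype.card (Fin D × Fin n) : ℝ) ≤ Λ := by
    rw [Fintype.card_prod, Fintype.card_fin, Fintype.card_fin, hΛ]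
    push_cast
    have h7 : (D : ℝ) * n ≤ C₂ := by
      have : 0 ≤ 1 + ((D : ℝ) * n + n) + 2 * K * C₁ ^ 2 := by positivity
      linarith
    exact h7.trans (le_mul_of_one_le_right (by linarith) (hlp p₂))
  have hcQ : (Fintype.card (Fin dc.M) : ℝ) ≤ Λ := by
    rw [Fintype.card_fin, hΛ]
    have h7 : dc.M ≤ (D * n + n) * l ^ D := by
      have h8 := dc.card
      have h9 : n ≤ n * l ^ D := Nat.le_mul_of_pos_right _ (pow_pos (NeZero.pos l) _)
      nlinarith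
    have h8 : (dc.M : ℝ) ≤ (D * n + n) * (l : ℝ) ^ D := by exact_mod_cast h7
    refine h8.trans (mul_le_mul ?_ (pow_le_pow_right₀ hl1 (by omega)) (by positivity)
      (by linarith))
    have : 0 ≤ 1 + (D : ℝ) * n + 2 * K * C₁ ^ 2 := by positivity
    linarith
  have hcS : Fintype.card (Fin D × Fin n) + Fintype.card (Fin dc.M) =
      Fintype.card (NT D l × Fin n) := by
    have e1 := dc.card
    rw [Fintype.card_prod, Fintype.card_fin, Fintype.card_fin, Fintype.card_fin,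
      Fintype.card_prod, Fintype.card_fin]
    have e3 : (Fintype.card (NT D l) + l ^ D) * n = (D * l ^ D + 1) * n := by rw [hc6]
    have e4 : (Fintype.card (NT D l) + l ^ D) * n = Fintype.card (NT D l) * n + l ^ D * n := by ring
    have e5 : (D * l ^ D + 1) * n = D * l ^ D * n + n := by ring
    omega
  set rq : ℝ := (C₃ * Λ ^ p₃)⁻¹ with hrq
  obtain ⟨-, -, hO, Ξ, hΞs, hΞ⟩ := hQ (Fin D × Fin n) (Fin dc.M) (NT D l × Fin n) u Λ rq hΛ1 hcP hcQ
    hcS hus hu0 hlow hup rfl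
  have hΛp : 1 ≤ C₃ * Λ ^ p₃ := one_le_mul_of_one_le_of_one_le hC₃ (one_le_pow₀ hΛ1)
  have hrq0 : 0 < rq := inv_pos.2 (by linarith)
  set κ : ℝ := κ₀ * (l : ℝ) ^ D with hκ
  have hκ1 : 1 ≤ κ := one_le_mul_of_one_le_of_one_le hκ₀1 (hlp D)
  set r : ℝ := (C₃ * C₂ ^ p₃ * κ₀ * C₁ * (1 + ε⁻¹) * (l : ℝ) ^ (p₂ * p₃ + D + p₁))⁻¹ with hr
  have hre : r⁻¹ = (C₃ * Λ ^ p₃) * κ * A * (1 + ε⁻¹) := by
    rw [hr, inv_inv, hΛ, hκ, hA, mul_pow, ← pow_mul]
    ring
  have hre1 : 1 ≤ r⁻¹ := by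
    rw [hre]
    exact one_le_mul_of_one_le_of_one_le (one_le_mul_of_one_le_of_one_le
      (one_le_mul_of_one_le_of_one_le hΛp hκ1) hA1) (by linarith)
  have hr0 : 0 < r := by
    have : 0 < r⁻¹ := by linarith
    exact inv_pos.1 this
  have hr1 : r ≤ 1 := by
    have := inv_le_one_of_one_le₀ hre1
    rwa [inv_inv] at this
  have hrrq : κ * r ≤ rq := by
    have h7 : C₃ * Λ ^ p₃ * κ ≤ r⁻¹ := by
      rw [hre]
      have h8 : 0 ≤ C₃ * Λ ^ p₃ * κ := by
        have := one_le_mul_of_one_le_of_one_le hΛp hκ1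
        linarith
      calc C₃ * Λ ^ p₃ * κ ≤ C₃ * Λ ^ p₃ * κ * A := le_mul_of_one_le_right h8 hA1
        _ ≤ C₃ * Λ ^ p₃ * κ * A * (1 + ε⁻¹) :=
          le_mul_of_one_le_right (by positivity) (by linarith)
    have h8 : C₃ * Λ ^ p₃ * κ * r ≤ 1 := by
      have := mul_le_mul_of_nonneg_right h7 hr0.le
      rwa [inv_mul_cancel₀ hr0.ne'] at this
    rw [hrq, le_inv_comm₀ (by positivity) (by linarith)]
    rw [← one_div, le_div_iff₀ (by positivity)]
    linarith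
  have hrq' : r ≤ rq := (le_mul_of_one_le_left hr0.le hκ1).trans hrrq
  have hAr : A * r < ε := by
    have h7 : A * (1 + ε⁻¹) ≤ r⁻¹ := by
      rw [hre]
      have h8 := one_le_mul_of_one_le_of_one_le hΛp hκ1
      rw [mul_assoc (C₃ * Λ ^ p₃ * κ)]
      exact le_mul_of_one_le_left (by positivity) h8
    have h8 : A * (1 + ε⁻¹) * r ≤ 1 := by
      have := mul_le_mul_of_nonneg_right h7 hr0.le
      rwa [inv_mul_cancel₀ hr0.ne'] at this
    have h9 : A * r * ε⁻¹ < 1 := by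
      have : 0 < A * r := mul_pos (by linarith) hr0
      nlinarith
    rwa [← div_eq_mul_inv, div_lt_one hε] at h9
  have hΦε : ∀ ρ, 0 < ρ → ρ ≤ r → ∀ x, nx x < ρ ^ 2 → ∀ e, ‖Φ x e - 1‖ < ε := by
    intro ρ hρ hρr x hx e
    refine lt_of_le_of_lt (hΦ1 ρ x hρ (hρr.trans hr1) hx e) (lt_of_le_of_lt ?_ hAr)
    exact mul_le_mul_of_nonneg_left hρr (by linarith)
  have himg : ∀ ρ, 0 < ρ → ρ ≤ r → ∀ V : NT D l → G, (∀ e, ‖mt (V e) - 1‖ < ε) →
      Lg (fun e => mt (V e)) ∈ u '' {x | nx x < ρ ^ 2} → V ∈ dc.th '' {x | nx x < ρ ^ 2} := by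
    rintro ρ hρ hρr V hV ⟨x, hx, hxV⟩
    refine ⟨x, hx, ?_⟩
    funext e
    apply mt_inj
    have h7 := hexp V hV e
    have h8 := hexp (dc.th x) (hΦε ρ hρ hρr x hx) e
    have h9 : Lg (fun e => mt (dc.th x e)) = Lg (fun e => mt (V e)) := hxV
    rw [h9, ← h7] at h8
    exact h8
  refine ⟨hr0, ⟨fun M => Ξ (Lg M), hΞs.comp hLgs, fun x hx => ?_⟩, ?_, ?_⟩
  · exact hΞ x (lt_of_lt_of_le hx (pow_le_pow_left₀ hr0.le hrq' 2))
  · intro ρ hρ hρr
    have hop := (hO ρ hρ (hρr.trans hrq')).1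
    have hset : dc.th '' {x | nx x < ρ ^ 2} = {V : NT D l → G | ∀ e, ‖mt (V e) - 1‖ < ε} ∩
        {V : NT D l → G | Lg (fun e => mt (V e)) ∈ u '' {x | nx x < ρ ^ 2}} := by
      ext V
      constructor
      · rintro ⟨x, hx, rfl⟩
        exact ⟨hΦε ρ hρ hρr x hx, ⟨x, hx, rfl⟩⟩
      · rintro ⟨hV1, hV2⟩
        exact himg ρ hρ hρr V hV1 hV2
    rw [hset]
    have hmtc : Continuous fun V : NT D l → G => fun e => mt (V e) :=
      continuous_pi fun e => continuous_mt.comp (continuous_apply e)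
    refine IsOpen.inter ?_ (hop.preimage (hLgs.continuous.comp hmtc))
    rw [Set.ofPred_forall]
    refine isOpen_iInter_of_finite fun e => isOpen_lt ?_ continuous_const
    exact ((continuous_mt.comp (continuous_apply e)).sub continuous_const).norm
  · intro ρ hρ hρr V hV
    have hrρ : r * ρ ≤ r := by
      have : ρ ≤ 1 := hρr.trans hr1
      exact mul_le_of_le_one_right hr0.le this
    have hrε : r < ε := by
      refine lt_of_le_of_lt ?_ hAr
      exact le_mul_of_one_le_left hr0.le hA1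
    have hV1 : ∀ e, ‖mt (V e) - 1‖ < ε := fun e => (hV e).trans (hrρ.trans_lt hrε)
    refine himg ρ hρ hρr V hV1 ((hO ρ hρ (hρr.trans hrq')).2 _ ?_)
    have hcard : (Fintype.card (NT D l) : ℝ) ≤ (D + 1) * (l : ℝ) ^ D := by
      have h7 : Fintype.card (NT D l) ≤ (D + 1) * l ^ D := by
        have h8 : 0 < l ^ D := pow_pos (NeZero.pos l) _
        nlinarith
      exact_mod_cast h7
    have h7 : n2 (Lg fun e => mt (V e)) ≤ (Fintype.card (NT D l) : ℝ) * (c * (r * ρ) ^ 2) := by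
      have h8 : n2 (Lg fun e => mt (V e)) = ∑ e, n2 (lg (mt (V e))) := by
        unfold n2
        rw [Fintype.sum_prod_type]
      rw [h8]
      calc ∑ e, n2 (lg (mt (V e))) ≤ ∑ _e : NT D l, c * (r * ρ) ^ 2 := by
            refine Finset.sum_le_sum fun e _ => (hc _ (hV1 e)).trans ?_
            exact mul_le_mul_of_nonneg_left (pow_le_pow_left₀ (norm_nonneg _) (hV e).le 2) hc0
        _ = _ := by rw [Finset.sum_const, Finset.card_univ, nsmul_eq_mul]
    have h9 : (Fintype.card (NT D l) : ℝ) * c < κ := by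
      have h10 : (Fintype.card (NT D l) : ℝ) * c ≤ (D + 1) * (l : ℝ) ^ D * c :=
        mul_le_mul_of_nonneg_right hcard hc0
      have h11 : κ = (l : ℝ) ^ D + (D + 1) * (l : ℝ) ^ D * c := by
        rw [hκ, hκ₀]; ring
      have := hlp D
      linarith
    have h10 : 0 < (r * ρ) ^ 2 := by positivity
    calc n2 (Lg fun e => mt (V e)) ≤ (Fintype.card (NT D l) : ℝ) * c * (r * ρ) ^ 2 := by
          rw [mul_assoc]; exact h7
      _ < κ * (r * ρ) ^ 2 := mul_lt_mul_of_pos_right h9 h10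
      _ ≤ κ ^ 2 * (r * ρ) ^ 2 :=
        mul_le_mul_of_nonneg_right (le_self_pow₀ hκ1 (by norm_num)) h10.le
      _ = (κ * r * ρ) ^ 2 := by ring
      _ ≤ (rq * ρ) ^ 2 := by
        refine pow_le_pow_left₀ (by positivity) ?_ 2
        exact mul_le_mul_of_nonneg_right hrrq hρ.le

end

end Pool.Agent.Q203.LU
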